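import Pool.Agent.H.MP_3020f5_gt.Iso

namespace Pool.Agent.H.MP_bb77e0_gt
open Set Topology Filter MeasureTheory Pool.Agent.H.MP_3020f5_gt

/-- The Ky Fan distance of two functions on `[0,1)`. -/
noncomputable def dKF (f g : J → ℝ) : ℝ :=
  sInf {ε | 0 ≤ ε ∧ lam.real {s | ε < |f s - g s|} ≤ ε}

/-- The Hausdorff distance, for the Ky Fan distance, of two sets of functions. -/
noncomputable def dH (F G : Set (J → ℝ)) : ℝ :=
  max (⨆ f : F, ⨅ g : G, dKF f.1 g.1) (⨆ g : G, ⨅ f : F, dKF f.1 g.1)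

/-- The pull-backs of the 1-Lipschitz functions along a parameter. -/
def LipSet (A : MM) (φ : J → A.X) : Set (J → ℝ) :=
  {h | ∃ f : A.X → ℝ, LipschitzWith 1 f ∧ h = f ∘ φ}

/-- The observable distance. -/
noncomputable def dconc (A B : MM) : ℝ :=
  sInf {r | ∃ φ ψ, IsParam A φ ∧ IsParam B ψ ∧ r = dH (LipSet A φ) (LipSet B ψ)}

/-- The concentration topology: a set of classes is open when it contains an
observable-distance ball around each of its points. -/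
@[reducible] def concTop : TopologicalSpace XX where
  IsOpen U := ∀ A, cls A ∈ U → ∃ ε : ℝ, 0 < ε ∧ ∀ B, dconc A B < ε → cls B ∈ U
  isOpen_univ _ _ := ⟨1, one_pos, fun _ _ => trivial⟩
  isOpen_inter U V hU hV A h := by
    obtain ⟨a, ha, h1⟩ := hU A h.1
    obtain ⟨b, hb, h2⟩ := hV A h.2
    exact ⟨min a b, lt_min ha hb, fun B hB =>
      ⟨h1 B (hB.trans_le (min_le_left _ _)), h2 B (hB.trans_le (min_le_right _ _))⟩⟩
  isOpen_sUnion S hS A h := by
    obtain ⟨U, hU, hA⟩ := h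
    obtain ⟨a, ha, h1⟩ := hS U hU A hA
    exact ⟨a, ha, fun B hB => ⟨U, hU, h1 B hB⟩⟩

theorem kf_one (f g : J → ℝ) : (1 : ℝ) ∈ {ε | 0 ≤ ε ∧ lam.real {s | ε < |f s - g s|} ≤ ε} :=
  ⟨zero_le_one, measureReal_le_one⟩

theorem dKF_nonneg (f g : J → ℝ) : 0 ≤ dKF f g := le_csInf ⟨1, kf_one f g⟩ fun _ h => h.1

theorem dKF_le_one (f g : J → ℝ) : dKF f g ≤ 1 := csInf_le ⟨0, fun _ h => h.1⟩ (kf_one f g)

theorem of_dconc_lt {A B : MM} {ε : ℝ} (h : dconc A B < ε) :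
    ∃ φ ψ, IsParam A φ ∧ IsParam B ψ ∧ ∀ g : B.X → ℝ, LipschitzWith 1 g → ∃ f : A.X → ℝ,
      LipschitzWith 1 f ∧ ∃ e, e < ε ∧ lam.real {s | e < |f (φ s) - g (ψ s)|} ≤ e := by
  obtain ⟨φ0, hφ0⟩ := param A.μ
  obtain ⟨ψ0, hψ0⟩ := param B.μ
  obtain ⟨r, ⟨φ, ψ, h1, h2, rfl⟩, hr⟩ := exists_lt_of_csInf_lt
    (s := {r | ∃ φ ψ, IsParam A φ ∧ IsParam B ψ ∧ r = dH (LipSet A φ) (LipSet B ψ)})
    ⟨_, φ0, ψ0, hφ0, hψ0, rfl⟩ h
  refine ⟨φ, ψ, h1, h2, fun g hg => ?_⟩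
  haveI : Nonempty (LipSet A φ) := ⟨⟨_, fun _ => 0, (LipschitzWith.const 0).weaken zero_le_one, rfl⟩⟩
  have h3 : (⨅ f : LipSet A φ, dKF f.1 (g ∘ ψ)) < ε := by
    refine lt_of_le_of_lt ?_ ((le_max_right _ _).trans_lt hr)
    refine le_ciSup (f := fun g : LipSet B ψ => ⨅ f : LipSet A φ, dKF f.1 g.1) ⟨1, ?_⟩
      ⟨g ∘ ψ, g, hg, rfl⟩
    rintro _ ⟨g', rfl⟩
    exact (ciInf_le ⟨0, by rintro _ ⟨f, rfl⟩; exact dKF_nonneg _ _⟩ (Classical.arbitrary _)).trans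
      (dKF_le_one _ _)
  obtain ⟨⟨_, f, hf, rfl⟩, h4⟩ := exists_lt_of_ciInf_lt h3
  obtain ⟨e, he, h5⟩ := exists_lt_of_csInf_lt ⟨1, kf_one _ _⟩ h4
  exact ⟨f, hf, e, h5, he.2⟩

def P (κ M : ℝ) (A : MM) : Prop := ∃ η : ℝ, 0 < η ∧ ∀ g : A.X → ℝ, LipschitzWith 1 g →
  ∃ a : ℝ, 1 - κ + η ≤ A.μ.real {x | |g x - a| ≤ M - η}

theorem msb {X : Type*} [PseudoMetricSpace X] [MeasurableSpace X] [BorelSpace X] {g : X → ℝ}
    (hg : LipschitzWith 1 g) (a r : ℝ) : MeasurableSet {x | |g x - a| ≤ r} :=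
  (isClosed_le (hg.continuous.sub continuous_const).abs continuous_const).measurableSet

theorem P.near {κ M : ℝ} {A : MM} (h : P κ M A) :
    ∃ ε : ℝ, 0 < ε ∧ ∀ B, dconc A B < ε → P κ M B := by
  obtain ⟨η, hη, h⟩ := h
  refine ⟨η / 2, by positivity, fun B hB => ⟨η / 2, by positivity, fun g hg => ?_⟩⟩
  obtain ⟨φ, ψ, h1, h2, h3⟩ := of_dconc_lt hB
  obtain ⟨f, hf, e, he, h4⟩ := h3 g hg
  obtain ⟨a, ha⟩ := h f hf
  refine ⟨a, ?_⟩
  rw [← h1.2, map_measureReal_apply h1.1 (msb hf _ _)] at ha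
  rw [← h2.2, map_measureReal_apply h2.1 (msb hg _ _)]
  have h5 : lam.real (φ ⁻¹' {x | |f x - a| ≤ M - η}) ≤
      lam.real (ψ ⁻¹' {x | |g x - a| ≤ M - η / 2}) + lam.real {s | e < |f (φ s) - g (ψ s)|} := by
    refine le_trans (measureReal_mono ?_) (measureReal_union_le _ _)
    intro s hs
    by_cases hc : e < |f (φ s) - g (ψ s)|
    · exact Or.inr hc
    · left
      have k1 := abs_le.1 (not_lt.1 hc)
      have k2 := abs_le.1 (show |f (φ s) - a| ≤ M - η from hs)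
      show |g (ψ s) - a| ≤ M - η / 2
      rw [abs_le]
      constructor <;> linarith [k1.1, k1.2, k2.1, k2.2]
  linarith

theorem real_comap (A : MM) {S : Set A.X} (hS : MeasurableSet S) :
    A.μ.real S = (A.μ.comap (Subtype.val : A.μ.support → A.X)).real (Subtype.val ⁻¹' S) := by
  rw [← map_measureReal_apply measurable_subtype_coe hS, map_comap_supp]

theorem P.iso {κ M : ℝ} {A B : MM} (h : P κ M A) (i : Iso A B) : P κ M B := by
  obtain ⟨η, hη, h⟩ := h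
  obtain ⟨f, e⟩ := i
  refine ⟨η, hη, fun g hg => ?_⟩
  classical
  let g0 : A.X → ℝ := fun x => if hx : x ∈ A.μ.support then g (f ⟨x, hx⟩).1 else 0
  have hg0 : LipschitzOnWith 1 g0 A.μ.support := by
    refine LipschitzOnWith.of_dist_le_mul fun x hx y hy => ?_
    simp only [g0, dif_pos hx, dif_pos hy]
    refine (hg.dist_le_mul _ _).trans (le_of_eq ?_)
    congr 1
    exact f.dist_eq ⟨x, hx⟩ ⟨y, hy⟩
  obtain ⟨g1, hg1, e1⟩ := hg0.extend_real
  obtain ⟨a, ha⟩ := h g1 hg1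
  refine ⟨a, ha.trans (le_of_eq ?_)⟩
  rw [real_comap A (msb hg1 _ _), real_comap B (msb hg _ _), ← e,
    map_measureReal_apply f.continuous.measurable (measurable_subtype_coe (msb hg _ _))]
  congr 1
  ext x
  have : g1 x.1 = g (f x).1 := by
    rw [← e1 x.2]
    simp only [g0, dif_pos x.2]
  simp only [mem_preimage, mem_setOf_eq, this]

theorem P.mono {κ M M' : ℝ} {A : MM} (h : P κ M A) (hM : M ≤ M') : P κ M' A := by
  obtain ⟨η, hη, h⟩ := h
  refine ⟨η, hη, fun g hg => ?_⟩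
  obtain ⟨a, ha⟩ := h g hg
  refine ⟨a, ha.trans (measureReal_mono fun x hx => ?_)⟩
  have : |g x - a| ≤ M - η := hx
  show |g x - a| ≤ M' - η
  linarith

theorem exP (κ : ℝ) (hκ : 0 < κ) (A : MM) : ∃ n : ℕ, P κ n A := by
  obtain ⟨x0⟩ : Nonempty A.X := nonempty_of_isProbabilityMeasure A.μ
  have h1 : Tendsto (fun n : ℕ => A.μ (Metric.closedBall x0 n)) atTop (𝓝 1) := by
    have := tendsto_measure_iUnion_atTop (μ := A.μ) (s := fun n : ℕ => Metric.closedBall x0 n)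
      (fun m n h => Metric.closedBall_subset_closedBall (by exact_mod_cast h))
    rwa [Metric.iUnion_closedBall_nat, measure_univ] at this
  have h2 := (ENNReal.tendsto_toReal ENNReal.one_ne_top).comp h1
  obtain ⟨n, hn⟩ := (h2.eventually (lt_mem_nhds (show 1 - κ / 2 < (1 : ENNReal).toReal by
    simp [hκ]))).exists
  have hn' : 1 - κ / 2 ≤ A.μ.real (Metric.closedBall x0 n) := hn.le
  obtain ⟨m, hm⟩ := exists_nat_ge ((n : ℝ) + κ / 2)
  refine ⟨m, κ / 2, by positivity, fun g hg => ⟨g x0, ?_⟩⟩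
  refine le_trans (by linarith) (hn'.trans (measureReal_mono fun x hx => ?_))
  have k1 := hg.dist_le_mul x x0
  rw [Real.dist_eq, NNReal.coe_one, one_mul] at k1
  have k2 := Metric.mem_closedBall.1 hx
  show |g x - g x0| ≤ m - κ / 2
  linarith

theorem bdd (κ : ℝ) (hκ : 0 < κ) (K : Set XX) (hK : @IsCompact XX concTop K) :
    ∃ n : ℕ, ∀ A, cls A ∈ K → P κ n A := by
  let U : ℕ → Set XX := fun n => {y | ∃ A, cls A = y ∧ P κ n A}
  have hU : ∀ n A, cls A ∈ U n → P κ n A := fun n A h => by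
    obtain ⟨B, h1, h2⟩ := h
    exact h2.iso (Quotient.exact h1)
  obtain ⟨n, hn⟩ := @IsCompact.elim_directed_cover XX concTop K ℕ _ hK U
    (fun n A hA => by
      obtain ⟨ε, hε, h⟩ := (hU n A hA).near
      exact ⟨ε, hε, fun B hB => ⟨B, rfl, h B hB⟩⟩)
    (fun y _ => by
      obtain ⟨A, rfl⟩ := cls_surj y
      obtain ⟨n, hn⟩ := exP κ hκ A
      exact mem_iUnion.2 ⟨n, A, rfl, hn⟩)
    (Monotone.directed_le fun m n h y hy => by
      obtain ⟨A, h1, h2⟩ := hy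
      exact ⟨A, h1, h2.mono (by exact_mod_cast h)⟩)
  exact ⟨n, fun A hA => hU n A (hn hA)⟩

theorem main : ¬ ∃ K : ℕ → Set XX, (∀ n, @IsCompact XX concTop (K n)) ∧ ⋃ n, K n = univ := by
  rintro ⟨K, hK, hU⟩
  let ν : Measure ℕ := ProbabilityTheory.poissonMeasure 1
  have hν : ∀ n, 0 < ν.real {n} := fun n =>
    ProbabilityTheory.poissonMeasure_real_singleton_pos n one_pos
  choose M hM using fun n : ℕ => bdd _ (lt_min (hν 0) (hν (n + 1))) (K n) (hK n)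
  let x : ℕ → ℝ := fun k => Nat.casesOn k 0 fun n => 2 * (M n : ℝ) + 1
  have hx : Measurable x := measurable_from_top
  haveI : IsProbabilityMeasure (ν.map x) := Measure.isProbabilityMeasure_map hx.aemeasurable
  let A : MM := MM.mk ℝ (ν.map x)
  obtain ⟨n, hn⟩ := mem_iUnion.1 (hU ▸ mem_univ (cls A))
  obtain ⟨η, hη, h⟩ := hM n A hn
  obtain ⟨a, ha⟩ := h (fun t : ℝ => t) LipschitzWith.id
  have ha' : 1 - min (ν.real {0}) (ν.real {n + 1}) + η ≤
      ν.real (x ⁻¹' {t : ℝ | |t - a| ≤ M n - η}) := by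
    rw [← map_measureReal_apply hx (msb (g := fun t : ℝ => t) LipschitzWith.id a _)]
    exact ha
  have key : ∀ k, min (ν.real {0}) (ν.real {n + 1}) ≤ ν.real {k} → |x k - a| ≤ M n - η := by
    intro k hk
    by_contra hc
    have h1 : ν.real (x ⁻¹' {t : ℝ | |t - a| ≤ M n - η}) ≤ ν.real {k}ᶜ :=
      measureReal_mono fun j hj hjk => hc (by rw [← mem_singleton_iff.1 hjk]; exact hj)
    rw [probReal_compl_eq_one_sub (measurableSet_singleton k)] at h1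
    linarith
  have k0 := abs_le.1 (key 0 (min_le_left _ _))
  have k1 := abs_le.1 (key (n + 1) (min_le_right _ _))
  have e0 : x 0 = 0 := rfl
  have e1 : x (n + 1) = 2 * (M n : ℝ) + 1 := rfl
  rw [e0] at k0
  rw [e1] at k1
  linarith [k0.1, k0.2, k1.1, k1.2]

end Pool.Agent.H.MP_bb77e0_gt
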